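import Pool.Agent.Lib_helper35.RS2.Defs2

/-!
# Rubin's conjecture for abelian `p`-groups: rational Stark for a layer, definitions

`Γ = Gal(H/F₀)` is the semidirect product of `G = Gal(H/F) = ⟨c⟩` (order `p ^ j`) and the image of
`θ : (ℤ/p^m)ˣ → Γ`, `θ(a) c θ(a)⁻¹ = c ^ a`. It acts on `Y = ℤ/p^m` by `c y = y + p^(m-j)`,
`θ(a) y = a y`, and on the quotient `Y' = ℤ/p^(m-1)`. For faithful characters `χ` of `G` one has
`Ind χ = ℂ[Y] - ℂ[Y']`.
-/

namespace Pool.Agent.RS3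

set_option linter.unusedSectionVars false

open Pool.Agent.RSK Pool.Agent.RS2
open NumberField IsDedekindDomain Filter Topology Complex

/-! ## Group actions, given as homomorphisms to permutation groups -/

section Act

variable {Γ Y Ω : Type} [Group Γ]

/-- the stabilizer -/
def stb (ρ : Γ →* Equiv.Perm Y) (y : Y) : Subgroup Γ where
  carrier := {γ | ρ γ y = y}
  one_mem' := by simp
  mul_mem' := by
    intro a b ha hb
    show ρ (a * b) y = y
    rw [map_mul, Equiv.Perm.mul_apply, show ρ b y = y from hb, show ρ a y = y from ha]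
  inv_mem' := by
    intro a ha
    show ρ a⁻¹ y = y
    rw [map_inv, Equiv.Perm.inv_eq_iff_eq]
    exact (show ρ a y = y from ha).symm

/-- the orbit relation -/
def orb (ρ : Γ →* Equiv.Perm Y) : Setoid Y where
  r y z := ∃ γ : Γ, ρ γ y = z
  iseqv :=
    { refl := fun y => ⟨1, by simp⟩
      symm := by
        rintro y z ⟨γ, rfl⟩
        exact ⟨γ⁻¹, by rw [map_inv]; exact (ρ γ).symm_apply_apply y⟩
      trans := by
        rintro x y z ⟨γ, rfl⟩ ⟨δ, rfl⟩
        exact ⟨δ * γ, by rw [map_mul, Equiv.Perm.mul_apply]⟩ }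

/-- the orbits -/
abbrev Orb (ρ : Γ →* Equiv.Perm Y) : Type := Quotient (orb ρ)

/-- the stabilizer of a representative of the orbit `o` -/
noncomputable def ost (ρ : Γ →* Equiv.Perm Y) (o : Orb ρ) : Subgroup Γ := stb ρ o.out

/-- the functions on `Ω` which are invariant under `U` -/
def ivt (k : Type) [CommRing k] (ρ : Γ →* Equiv.Perm Ω) (U : Subgroup Γ) : Submodule k (Ω → k) where
  carrier := {x | ∀ u ∈ U, ∀ ω, x (ρ u ω) = x ω}
  zero_mem' := fun u _ ω => rfl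
  add_mem' := fun {a b} ha hb u hu ω => by rw [Pi.add_apply, Pi.add_apply, ha u hu, hb u hu]
  smul_mem' := fun c x hx u hu ω => by rw [Pi.smul_apply, Pi.smul_apply, hx u hu]

/-- `F` commutes with the action of `Γ` on the functions on `Ω` -/
def MIv {k : Type} (ρ : Γ →* Equiv.Perm Ω) (F : Ω → Ω → k) : Prop :=
  ∀ (γ : Γ) (ω ω' : Ω), F (ρ γ ω) (ρ γ ω') = F ω ω'

open scoped Classical in
/-- the determinant of `F` on the functions which are invariant under `U` -/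
noncomputable def dt {k : Type} [CommRing k] [Fintype Ω] (ρ : Γ →* Equiv.Perm Ω) (F : Matrix Ω Ω k)
    (U : Subgroup Γ) : k :=
  if h : ∀ x ∈ ivt k ρ U, Matrix.mulVecLin F x ∈ ivt k ρ U then
    LinearMap.det ((Matrix.mulVecLin F).restrict h) else 0

/-- the product of the determinants for the orbits of `Γ` on `Y` -/
noncomputable def dtY {k : Type} [CommRing k] [Fintype Ω] (ρ : Γ →* Equiv.Perm Ω)
    (F : Matrix Ω Ω k) (σ : Γ →* Equiv.Perm Y) : k :=
  ∏ᶠ o : Orb σ, dt ρ F (ost σ o)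

/-- the functions on `Y × Ω` which are invariant under `Γ`, i.e. the `Γ`-maps from `Y` to the functions
on `Ω` -/
def WY (k : Type) [CommRing k] (ρ : Γ →* Equiv.Perm Ω) (σ : Γ →* Equiv.Perm Y) :
    Submodule k (Y → Ω → k) where
  carrier := {h | ∀ γ y ω, h (σ γ y) (ρ γ ω) = h y ω}
  zero_mem' := fun γ y ω => rfl
  add_mem' := fun {a b} ha hb γ y ω => by
    rw [Pi.add_apply, Pi.add_apply, Pi.add_apply, Pi.add_apply, ha, hb]
  smul_mem' := fun c x hx γ y ω => by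
    rw [Pi.smul_apply, Pi.smul_apply, Pi.smul_apply, Pi.smul_apply, hx]

/-- the action of `F` on `Y → Ω → k` -/
noncomputable def FY {k : Type} [CommRing k] [Fintype Ω] (Y : Type) (F : Matrix Ω Ω k) :
    (Y → Ω → k) →ₗ[k] (Y → Ω → k) :=
  LinearMap.pi fun y => (Matrix.mulVecLin F).comp (LinearMap.proj y)

open scoped Classical in
/-- the determinant of `F` on `WY` -/
noncomputable def dtW {k : Type} [CommRing k] [Fintype Ω] (ρ : Γ →* Equiv.Perm Ω)
    (F : Matrix Ω Ω k) (σ : Γ →* Equiv.Perm Y) : k :=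
  if h : ∀ x ∈ WY k ρ σ, FY Y F x ∈ WY k ρ σ then LinearMap.det ((FY Y F).restrict h) else 0

/-- The affine action of `Γ` on `ℤ/p^m`. -/
structure AffD (p m j : ℕ) (c : Γ) (θ : (ZMod (p ^ m))ˣ →* Γ)
    (ρ : Γ →* Equiv.Perm (ZMod (p ^ m))) (ρ' : Γ →* Equiv.Perm (ZMod (p ^ (m - 1)))) : Prop where
  prime : p.Prime
  pos : 0 < j
  le : j ≤ m
  ord : orderOf c = p ^ j
  conj : ∀ a : (ZMod (p ^ m))ˣ, θ a * c * (θ a)⁻¹ = c ^ (a : ZMod (p ^ m)).val
  dec : ∀ γ : Γ, ∃ (x : ℕ) (a : (ZMod (p ^ m))ˣ), γ = c ^ x * θ a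
  triv : ∀ (x : ℕ) (a : (ZMod (p ^ m))ˣ), c ^ x * θ a = 1 → a = 1
  actc : ∀ y, ρ c y = y + (p ^ (m - j) : ℕ)
  actθ : ∀ (a : (ZMod (p ^ m))ˣ) y, ρ (θ a) y = a * y
  proj : ∀ (γ : Γ) (y : ZMod (p ^ m)), ρ' γ (y.cast : ZMod (p ^ (m - 1))) = (ρ γ y).cast

end Act

/-! ## Fields -/

section Fld

variable {F₀ F H : Type} [Field F₀] [NumberField F₀] [Field F] [NumberField F] [Field H]
  [NumberField H] [Algebra F₀ F] [Algebra F₀ H] [Algebra F H] [IsScalarTower F₀ F H]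

/-- the fixed field of `U` -/
abbrev FX (U : Subgroup (H ≃ₐ[F₀] H)) : Type := ↥(IntermediateField.fixedField U)

/-- the product of the zeta functions of the fixed fields of the stabilizers, for the orbits of
`Gal(H/F₀)` on `Y` -/
noncomputable def zY {Y : Type} (S₀ T₀ : Finset (HeightOneSpectrum (𝓞 F₀)))
    (σ : (H ≃ₐ[F₀] H) →* Equiv.Perm Y) (s : ℂ) : ℂ :=
  ∏ᶠ o : Orb σ, zST (ovr (FX (ost σ o)) S₀) (ovr (FX (ost σ o)) T₀) s

/-- the inclusion of `Gal(H/F)` in `Gal(H/F₀)` -/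
def rst (F₀ : Type) {F H : Type} [Field F₀] [Field F] [Field H] [Algebra F₀ F] [Algebra F₀ H]
    [Algebra F H] [IsScalarTower F₀ F H] {G : Type} [CommGroup G] (ι : G ≃* (H ≃ₐ[F] H)) :
    G →* (H ≃ₐ[F₀] H) where
  toFun g := (ι g).restrictScalars F₀
  map_one' := by
    rw [map_one]
    rfl
  map_mul' g h := by
    rw [map_mul]
    rfl

/-- the action of `σ` on the places of `H` above `S₀` -/
noncomputable def acF (S₀ : Finset (HeightOneSpectrum (𝓞 F₀))) (σ : H ≃ₐ[F₀] H) :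
    PS (ovr H S₀) → PS (ovr H S₀)
  | Sum.inl w => Sum.inl (σ • w)
  | Sum.inr v => Sum.inr ⟨HeightOneSpectrum.equivOfRingEquiv
      (RingOfIntegers.mapRingEquiv σ.toRingEquiv) v.1, by
        rw [mem_ovr, under_equiv]
        exact mem_ovr.1 v.2⟩

theorem acF_pl (S₀ : Finset (HeightOneSpectrum (𝓞 F₀))) (σ : H ≃ₐ[F₀] H) (P : PS (ovr H S₀)) :
    (acF S₀ σ P).pl = act σ P.pl := by
  rcases P with w | v <;> rfl

theorem PS_ext {S : Finset (HeightOneSpectrum (𝓞 H))} {P Q : PS S} (h : P.pl = Q.pl) : P = Q := by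
  rcases P with w | v <;> rcases Q with w' | v'
  · exact congrArg Sum.inl (Sum.inl.inj h)
  · exact absurd h (by simp [PS.pl])
  · exact absurd h (by simp [PS.pl])
  · exact congrArg Sum.inr (Subtype.ext (Sum.inr.inj h))

/-- the action of `Gal(H/F₀)` on the places of `H` above `S₀` -/
noncomputable def acH (H : Type) [Field H] [NumberField H] [Algebra F₀ H]
    (S₀ : Finset (HeightOneSpectrum (𝓞 F₀))) : (H ≃ₐ[F₀] H) →* Equiv.Perm (PS (ovr H S₀)) where
  toFun σ :=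
    { toFun := acF S₀ σ
      invFun := acF S₀ σ⁻¹
      left_inv := fun P => PS_ext (by rw [acF_pl, acF_pl, ← act_mul, inv_mul_cancel, act_one])
      right_inv := fun P => PS_ext (by rw [acF_pl, acF_pl, ← act_mul, mul_inv_cancel, act_one]) }
  map_one' := Equiv.ext fun P => PS_ext (by
    show (acF S₀ 1 P).pl = P.pl
    rw [acF_pl, act_one])
  map_mul' σ τ := Equiv.ext fun P => PS_ext (by
    show (acF S₀ (σ * τ) P).pl = (acF S₀ σ (acF S₀ τ P)).pl
    rw [acF_pl, acF_pl, acF_pl, act_mul])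

theorem acH_pl (S₀ : Finset (HeightOneSpectrum (𝓞 F₀))) (σ : H ≃ₐ[F₀] H) (P : PS (ovr H S₀)) :
    (acH H S₀ σ P).pl = act σ P.pl := acF_pl S₀ σ P

/-- `F` is the logarithm map composed with a rational isomorphism: `N F(x) = log|u| + s` with
`u ∈ U_{S,T}` for integral `x`, and all logarithm vectors are values of `F` at rational vectors. -/
structure IsFX (S₀ T₀ : Finset (HeightOneSpectrum (𝓞 F₀))) (F : Matrix (PS (ovr H S₀))
    (PS (ovr H S₀)) ℝ) (N : ℕ) : Prop where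
  inv : MIv (acH H S₀) F
  ne : ∀ x : PS (ovr H S₀) → ℝ, (∀ P, ∑ Q, F P Q * x Q = 0) → x = 0
  pos : 0 < N
  int : ∀ x : PS (ovr H S₀) → ℤ, ∃ u ∈ Un (ovr H S₀) (ovr H T₀), ∃ s : ℤ, ∀ P : PS (ovr H S₀),
    N * ∑ Q, F P Q * (x Q : ℝ) = lg P.pl (u : H) + s
  rat : ∀ (u : Hˣ), u ∈ Un (ovr H S₀) (ovr H T₀) → ∀ s : ℤ, ∃ x : PS (ovr H S₀) → ℚ,
    ∀ P : PS (ovr H S₀), ∑ Q, F P Q * (x Q : ℝ) = lg P.pl (u : H) + s

/-- the matrix `(∑_γ χ(γ) F(γ w_i, w_j))` of `F` on the `χ`-part -/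
noncomputable def Fchi {Ω : Type} {G : Type} [CommGroup G] [Fintype G] (ρ : G →* Equiv.Perm Ω)
    (F : Matrix Ω Ω ℝ) {r : ℕ} (w : Fin r → Ω) (χ : G →* ℂˣ) : Matrix (Fin r) (Fin r) ℂ :=
  Matrix.of fun i j => ∑ γ : G, (χ γ : ℂ) * (F (ρ γ (w i)) (w j) : ℂ)

end Fld

end Pool.Agent.RS3
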